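import Mathlib
import Pool.Agent.ISB.StmtsC

set_option autoImplicit false

/-! Row ROB of the squad ISB: the points permuted by `κ`. -/

namespace Pool.Agent.ISB.H95

open Pool.Agent.ISB
open scoped Classical commutatorElement

theorem exists_fixed {Δ : Type} [Finite Δ] {r : ℕ} (hr : r.Prime) (f : Function.End Δ) (m : ℕ)
    (hf : ∀ y : Δ, (Nat.iterate f (r ^ m)) y = y) (hc : ¬ r ∣ Nat.card Δ) : ∃ y, f y = y := by
  have : Fact r.Prime := ⟨hr⟩
  have : Fintype Δ := Fintype.ofFinite Δ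
  have h1 : f ^ r ^ m = 1 := by
    funext y
    have e : ∀ n : ℕ, f ^ n = Nat.iterate f n := by
      intro n
      induction n with
      | zero => rfl
      | succ n ih =>
        rw [pow_succ, ih]
        rfl
    rw [e]
    exact hf y
  have h2 := Equiv.Perm.card_fixedPoints_modEq h1
  by_contra hcon
  push Not at hcon
  have h3 : ∀ inst : Fintype (Function.fixedPoints f),
      @Fintype.card (Function.fixedPoints f) inst = 0 := by
    intro inst
    rw [Fintype.card_eq_zero_iff]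
    exact ⟨fun y => hcon y.1 y.2⟩
  apply hc
  rw [Nat.card_eq_fintype_card]
  rw [h3 _] at h2
  exact (Nat.modEq_zero_iff_dvd).1 h2

theorem rob (roa : RoaStmt) : RobStmt := by
  intro G Ω _ _ _ _ r a P α hr hodd hP htr hcard horb hfix
  obtain ⟨κ, ⟨m, hm⟩, ⟨p, hp, hpα⟩, hcov⟩ := roa G Ω r a P α hr hP htr hcard horb
  have conj : ∀ (g : G) (q : G), q ∈ P → g * q * g⁻¹ ∈ P := fun g q hq => hP.conj_mem q hq g
  have hmap : ∀ y ∈ MulAction.orbit P α, κ ^ r • y ∈ MulAction.orbit P α := by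
    rintro y ⟨q, rfl⟩
    refine ⟨⟨κ ^ r * (q : G) * (κ ^ r)⁻¹ * p, P.mul_mem (conj _ _ q.2) hp⟩, ?_⟩
    show (κ ^ r * (q : G) * (κ ^ r)⁻¹ * p) • α = κ ^ r • ((q : G) • α)
    rw [mul_smul _ p α, ← hpα, smul_smul, smul_smul]
    congr 1
    group
  have hnd : ¬ r ∣ Nat.card (MulAction.orbit P α) := by
    rw [horb]
    intro h
    have h1 := hr.dvd_of_dvd_pow h
    have h2 := (Nat.prime_dvd_prime_iff_eq hr Nat.prime_two).1 h1
    subst h2
    exact absurd hodd (by decide)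
  have hiter : ∀ (n : ℕ) (y : MulAction.orbit P α),
      (((fun y : MulAction.orbit P α => (⟨κ ^ r • y.1, hmap y.1 y.2⟩ : MulAction.orbit P α))^[n] y :
        MulAction.orbit P α) : Ω) = (κ ^ r) ^ n • y.1 := by
    intro n
    induction n with
    | zero =>
      intro y
      simp
    | succ n ih =>
      intro y
      rw [Function.iterate_succ_apply, ih, smul_smul, ← pow_succ]
  obtain ⟨⟨y, hyo⟩, hy⟩ := exists_fixed hr
    (fun y : MulAction.orbit P α => (⟨κ ^ r • y.1, hmap y.1 y.2⟩ : MulAction.orbit P α)) m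
    (by
      intro y
      apply Subtype.ext
      rw [hiter, ← pow_mul, mul_comm, pow_mul, hm, one_pow, one_smul]) hnd
  have hy1 : κ ^ r • y = y := congrArg Subtype.val hy
  obtain ⟨q, hq⟩ := hyo
  have hα : α = (q : G)⁻¹ • y := by
    have h1 : (q : G) • α = y := hq
    rw [← h1, inv_smul_smul]
  refine ⟨κ, fun k => κ ^ k • y, ⟨hP, ?_, ?_, ?_, hfix⟩, m, hm⟩
  · intro k
    show κ • (κ ^ k • y) = κ ^ (k + 1) • y
    rw [smul_smul, ← pow_succ']
  · intro k
    show κ ^ (k + r) • y = κ ^ k • y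
    rw [pow_add, mul_smul, hy1]
  · intro x
    obtain ⟨k, hk, g, hg, hx⟩ := hcov x
    refine ⟨k, hk, g * (κ ^ k * (q : G)⁻¹ * (κ ^ k)⁻¹),
      P.mul_mem hg (conj _ _ (P.inv_mem q.2)), ?_⟩
    show x = (g * (κ ^ k * (q : G)⁻¹ * (κ ^ k)⁻¹)) • (κ ^ k • y)
    rw [hx, hα, smul_smul, smul_smul, smul_smul]
    congr 1
    group

end Pool.Agent.ISB.H95
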